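import Mathlib

set_option autoImplicit false

/-!
Every `(𝒜, ℬ)`-expanding subset of a discrete abelian group supports a KMF mean.
-/

namespace Pool.Agent.Results.MP_49446c_co.ExpandingSupportsKMF

open MeasureTheory Filter Topology

section defs

variable {G : Type*}

/-- Bounded real-valued functions. -/
def Bdd (f : G → ℝ) : Prop := ∃ C : ℝ, ∀ x, |f x| ≤ C

/-- `m` is a mean: a positive linear functional on the bounded functions with `m(1) = 1`. (The
values of `m` at unbounded functions play no role.) -/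
structure IsMean (m : (G → ℝ) → ℝ) : Prop where
  add : ∀ f g, Bdd f → Bdd g → m (fun x => f x + g x) = m f + m g
  smul : ∀ (c : ℝ) (f : G → ℝ), Bdd f → m (fun x => c * f x) = c * m f
  nonneg : ∀ f, Bdd f → (∀ x, 0 ≤ f x) → 0 ≤ m f
  one : m (fun _ => 1) = 1

/-- The indicator function of a set. -/
noncomputable def ind (A : Set G) : G → ℝ := A.indicator (fun _ => 1)

variable [CommGroup G]

/-- `m` is an invariant mean. -/
def IsInvMean (m : (G → ℝ) → ℝ) : Prop :=
  IsMean m ∧ ∀ f, Bdd f → ∀ g : G, m (fun x => f (x * g)) = m f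

/-- The upper Banach density. -/
noncomputable def dStar (A : Set G) : ℝ :=
  sSup {t : ℝ | ∃ m : (G → ℝ) → ℝ, IsInvMean m ∧ t = m (ind A)}

variable [TopologicalSpace G]

/-- `B` is a Bohr set. -/
def IsBohr (B : Set G) : Prop :=
  ∃ (k : ℕ) (χ : Fin k → PontryaginDual G) (ε : ℝ), 0 < ε ∧
    B = {g | ∀ j, ‖((χ j g : Circle) : ℂ) - 1‖ < ε}

/-- `S` is `(𝒜, ℬ)`-expanding. -/
def Expanding (S : Set G) : Prop := ∀ B : Set G, IsBohr B → 0 < dStar (S ∩ B)

/-- The Borel `σ`-algebra of the dual group. -/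
noncomputable instance : MeasurableSpace (PontryaginDual G) := borel _

instance : BorelSpace (PontryaginDual G) := ⟨rfl⟩

/-- The Fourier transform of a measure on the dual group. -/
noncomputable def ft (μ : Measure (PontryaginDual G)) (g : G) : ℂ :=
  ∫ χ : PontryaginDual G, (starRingEnd ℂ) ((χ g : Circle) : ℂ) ∂μ

/-- `m` annihilates continuous measures. -/
def Annihilates (m : (G → ℝ) → ℝ) : Prop :=
  ∀ μ : Measure (PontryaginDual G), IsFiniteMeasure μ → μ.Regular → (∀ χ, μ {χ} = 0) →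
    m (fun g => ‖ft μ g‖) = 0

/-- `m` is a KMF mean. -/
structure IsKMF (m : (G → ℝ) → ℝ) : Prop where
  mean : IsMean m
  annihilates : Annihilates m
  accumulates : ∀ B : Set G, IsBohr B → 0 < m (ind B)

end defs

section means

variable {G : Type*}

theorem Bdd.add {f g : G → ℝ} (hf : Bdd f) (hg : Bdd g) : Bdd (fun x => f x + g x) := by
  obtain ⟨C, hC⟩ := hf
  obtain ⟨D, hD⟩ := hg
  exact ⟨C + D, fun x => (abs_add_le _ _).trans (add_le_add (hC x) (hD x))⟩

theorem Bdd.smul {f : G → ℝ} (c : ℝ) (hf : Bdd f) : Bdd (fun x => c * f x) := by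
  obtain ⟨C, hC⟩ := hf
  refine ⟨|c| * C, fun x => ?_⟩
  rw [abs_mul]
  exact mul_le_mul_of_nonneg_left (hC x) (abs_nonneg c)

theorem bdd_const (c : ℝ) : Bdd (fun _ : G => c) := ⟨|c|, fun _ => le_rfl⟩

theorem bdd_ind (A : Set G) : Bdd (ind A) := by
  classical
  refine ⟨1, fun x => ?_⟩
  rw [ind, Set.indicator_apply]
  split_ifs <;> simp

theorem Bdd.mul_ind {f : G → ℝ} (hf : Bdd f) (A : Set G) : Bdd (fun x => f x * ind A x) := by
  classical
  obtain ⟨C, hC⟩ := hf
  refine ⟨C, fun x => ?_⟩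
  rw [abs_mul, ind, Set.indicator_apply]
  have h0 : 0 ≤ C := (abs_nonneg _).trans (hC x)
  split_ifs
  · simpa using hC x
  · simpa using h0

namespace IsMean

variable {m : (G → ℝ) → ℝ} (hm : IsMean m)

include hm

theorem const (c : ℝ) : m (fun _ => c) = c := by
  have := hm.smul c (fun _ => 1) (bdd_const 1)
  rw [hm.one, mul_one] at this
  simpa using this

theorem mono {f g : G → ℝ} (hf : Bdd f) (hg : Bdd g) (h : ∀ x, f x ≤ g x) : m f ≤ m g := by
  have h1 := hm.add f (fun x => g x + (-1) * f x) hf (hg.add (hf.smul _))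
  have h2 : (fun x => f x + (g x + (-1) * f x)) = g := by funext x; ring
  rw [h2] at h1
  have h3 := hm.nonneg (fun x => g x + (-1) * f x) (hg.add (hf.smul _))
    (fun x => by linarith [h x])
  linarith

theorem abs_le {f : G → ℝ} {C : ℝ} (h : ∀ x, |f x| ≤ C) : |m f| ≤ C := by
  have hf : Bdd f := ⟨C, h⟩
  rw [_root_.abs_le]
  constructor
  · have := hm.mono (bdd_const (-C)) hf (fun x => (_root_.abs_le.1 (h x)).1)
    rwa [hm.const] at this
  · have := hm.mono hf (bdd_const C) (fun x => (_root_.abs_le.1 (h x)).2)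
    rwa [hm.const] at this

end IsMean

/-- The mean conditioned on a set. -/
noncomputable def cond (m : (G → ℝ) → ℝ) (A : Set G) (f : G → ℝ) : ℝ :=
  (m (ind A))⁻¹ * m (fun x => f x * ind A x)

theorem isMean_cond {m : (G → ℝ) → ℝ} (hm : IsMean m) {A : Set G} (hA : 0 < m (ind A)) :
    IsMean (cond m A) where
  add := by
    intro f g hf hg
    have h1 : (fun x => (f x + g x) * ind A x) = fun x => f x * ind A x + g x * ind A x := by
      funext x; ring
    rw [cond, h1, hm.add _ _ (hf.mul_ind A) (hg.mul_ind A), mul_add]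
    rfl
  smul := by
    intro c f hf
    have h1 : (fun x => (c * f x) * ind A x) = fun x => c * (f x * ind A x) := by
      funext x; ring
    rw [cond, h1, hm.smul _ _ (hf.mul_ind A), cond]
    ring
  nonneg := by
    classical
    intro f hf h
    apply mul_nonneg (inv_nonneg.2 hA.le)
    apply hm.nonneg _ (hf.mul_ind A)
    intro x
    apply mul_nonneg (h x)
    rw [ind, Set.indicator_apply]
    split_ifs <;> norm_num
  one := by
    have h1 : (fun x => (1 : ℝ) * ind A x) = ind A := by funext x; ring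
    rw [cond, h1]
    exact inv_mul_cancel₀ hA.ne'

theorem cond_of_subset {m : (G → ℝ) → ℝ} {A B : Set G} (hA : 0 < m (ind A)) (h : A ⊆ B) :
    cond m A (ind B) = 1 := by
  classical
  have h1 : (fun x => ind B x * ind A x) = ind A := by
    funext x
    simp only [ind, Set.indicator_apply]
    by_cases hx : x ∈ A
    · simp [hx, h hx]
    · simp [hx]
  rw [cond, h1]
  exact inv_mul_cancel₀ hA.ne'

theorem cond_eq_zero {m : (G → ℝ) → ℝ} (hm : IsMean m) {A : Set G} (hA : 0 < m (ind A))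
    {f : G → ℝ} (hf : Bdd f) (h0 : ∀ x, 0 ≤ f x) (h : m f = 0) : cond m A f = 0 := by
  classical
  have h1 : 0 ≤ m (fun x => f x * ind A x) := by
    apply hm.nonneg _ (hf.mul_ind A)
    intro x
    apply mul_nonneg (h0 x)
    rw [ind, Set.indicator_apply]
    split_ifs <;> norm_num
  have h2 : m (fun x => f x * ind A x) ≤ m f := by
    apply hm.mono (hf.mul_ind A) hf
    intro x
    rw [ind, Set.indicator_apply]
    split_ifs
    · rw [mul_one]
    · rw [mul_zero]; exact h0 x
  rw [cond, show m (fun x => f x * ind A x) = 0 by linarith, mul_zero]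

/-- Limits of means along an ultrafilter. -/
theorem exists_limit {ι : Type*} (U : Ultrafilter ι) (ν : ι → (G → ℝ) → ℝ)
    (hν : ∀ i, IsMean (ν i)) :
    ∃ m : (G → ℝ) → ℝ, IsMean m ∧ ∀ f, Bdd f → Tendsto (fun i => ν i f) U (𝓝 (m f)) := by
  have hex : ∀ f : G → ℝ, Bdd f → ∃ t, Tendsto (fun i => ν i f) U (𝓝 t) := by
    rintro f ⟨C, hC⟩
    have hc : IsCompact (Set.Icc (-C) C) := isCompact_Icc
    obtain ⟨t, -, ht⟩ := hc.ultrafilter_le_nhds (U.map (fun i => ν i f)) (by
      rw [Filter.le_principal_iff, Ultrafilter.mem_coe, Ultrafilter.mem_map]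
      apply Filter.univ_mem'
      intro i
      exact abs_le.1 ((hν i).abs_le hC))
    exact ⟨t, ht⟩
  choose! m hm using hex
  refine ⟨m, ⟨?_, ?_, ?_, ?_⟩, hm⟩
  · intro f g hf hg
    apply tendsto_nhds_unique (hm _ (hf.add hg))
    have := (hm f hf).add (hm g hg)
    refine this.congr fun i => ?_
    rw [(hν i).add f g hf hg]
  · intro c f hf
    apply tendsto_nhds_unique (hm _ (hf.smul c))
    have := (hm f hf).const_mul c
    refine this.congr fun i => ?_
    rw [(hν i).smul c f hf]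
  · intro f hf h
    exact ge_of_tendsto' (hm f hf) fun i => (hν i).nonneg f hf h
  · apply tendsto_nhds_unique (hm _ (bdd_const 1))
    refine tendsto_const_nhds.congr fun i => ?_
    rw [(hν i).one]

end means

section wiener

variable {G : Type*} [CommGroup G] [TopologicalSpace G] [DiscreteTopology G]

/-- The kernel `∏_{h ∈ L} (1 + θ(h))/2`. -/
noncomputable def ker (L : List G) (θ : PontryaginDual G) : ℂ :=
  (L.map (fun h => (1 + ((θ h : Circle) : ℂ)) / 2)).prod

theorem norm_factor_le (θ : PontryaginDual G) (h : G) :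
    ‖(1 + ((θ h : Circle) : ℂ)) / 2‖ ≤ 1 := by
  rw [norm_div]
  have h1 : ‖(1 : ℂ) + ((θ h : Circle) : ℂ)‖ ≤ 2 := by
    refine (norm_add_le _ _).trans ?_
    rw [norm_one, Circle.norm_coe]
    norm_num
  have h2 : ‖(2 : ℂ)‖ = 2 := by norm_num
  rw [h2]
  linarith

theorem norm_ker_le (L : List G) (θ : PontryaginDual G) : ‖ker L θ‖ ≤ 1 := by
  induction L with
  | nil => simp [ker]
  | cons h L ih =>
    have : ker (h :: L) θ = (1 + ((θ h : Circle) : ℂ)) / 2 * ker L θ := by simp [ker]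
    rw [this, norm_mul]
    exact mul_le_one₀ (norm_factor_le θ h) (norm_nonneg _) ih

theorem ker_append (L M : List G) (θ : PontryaginDual G) :
    ker (L ++ M) θ = ker L θ * ker M θ := by
  simp [ker]

theorem continuous_eval (g : G) : Continuous (fun χ : PontryaginDual G => ((χ g : Circle) : ℂ)) := by
  have h1 : Continuous (fun χ : G →ₜ* Circle => χ g) :=
    (continuous_eval_const (F := C(G, Circle)) g).comp
      (ContinuousMonoidHom.isInducing_toContinuousMap G Circle).continuous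
  have h2 : Continuous (fun χ : PontryaginDual G => χ g) := h1
  exact continuous_induced_dom.comp h2

theorem continuous_ker (L : List G) : Continuous (ker L) := by
  induction L with
  | nil =>
    have : ker ([] : List G) = fun _ => 1 := by funext θ; simp [ker]
    rw [this]
    exact continuous_const
  | cons h L ih =>
    have : ker (h :: L) = fun θ => (1 + ((θ h : Circle) : ℂ)) / 2 * ker L θ := by
      funext θ; simp [ker]
    rw [this]
    exact ((continuous_const.add (continuous_eval h)).div_const _).mul ih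

theorem norm_factor_lt {z : ℂ} (hz : ‖z‖ = 1) (h1 : z ≠ 1) : ‖(1 + z) / 2‖ < 1 := by
  rw [norm_div]
  have h2 : ‖(2 : ℂ)‖ = 2 := by norm_num
  rw [h2, div_lt_one (by norm_num)]
  have hle : ‖1 + z‖ ≤ 2 := by
    refine (norm_add_le _ _).trans ?_
    rw [norm_one, hz]; norm_num
  refine lt_of_le_of_ne hle fun h3 => h1 ?_
  have h4 : ‖(1 : ℂ) + z‖ = ‖(1 : ℂ)‖ + ‖z‖ := by rw [h3, norm_one, hz]; norm_num
  have h5 := sameRay_iff_norm_add.2 h4
  have h6 := h5.norm_smul_eq
  rw [norm_one, hz, one_smul, one_smul] at h6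
  exact h6

/-- Small kernels. -/
theorem exists_ker {K : Set (PontryaginDual G)} (hK : IsCompact K) (h1 : (1 : PontryaginDual G) ∉ K) :
    ∀ ε : ℝ, 0 < ε → ∃ L : List G, ∀ θ ∈ K, ‖ker L θ‖ ≤ ε := by
  refine hK.induction_on (p := fun s => ∀ ε : ℝ, 0 < ε → ∃ L : List G, ∀ θ ∈ s, ‖ker L θ‖ ≤ ε)
    ?_ ?_ ?_ ?_
  · intro ε _
    exact ⟨[], fun θ hθ => absurd hθ (Set.notMem_empty θ)⟩
  · intro s t hst ht ε hε
    obtain ⟨L, hL⟩ := ht ε hε
    exact ⟨L, fun θ hθ => hL θ (hst hθ)⟩
  · intro s t hs ht ε hε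
    obtain ⟨L, hL⟩ := hs ε hε
    obtain ⟨M, hM⟩ := ht ε hε
    refine ⟨L ++ M, ?_⟩
    rintro θ (hθ | hθ)
    · rw [ker_append, norm_mul]
      calc ‖ker L θ‖ * ‖ker M θ‖ ≤ ε * 1 :=
            mul_le_mul (hL θ hθ) (norm_ker_le M θ) (norm_nonneg _) hε.le
        _ = ε := mul_one ε
    · rw [ker_append, norm_mul]
      calc ‖ker L θ‖ * ‖ker M θ‖ ≤ 1 * ε :=
            mul_le_mul (norm_ker_le L θ) (hM θ hθ) (norm_nonneg _) zero_le_one
        _ = ε := one_mul ε
  · intro θ hθ
    have hne : θ ≠ 1 := fun h => h1 (h ▸ hθ)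
    obtain ⟨h, hh⟩ : ∃ h, θ h ≠ 1 := by
      by_contra hcon
      push Not at hcon
      exact hne (PontryaginDual.ext hcon)
    have hlt : ‖(1 + ((θ h : Circle) : ℂ)) / 2‖ < 1 := by
      apply norm_factor_lt (Circle.norm_coe _)
      intro h2
      exact hh (Circle.coe_eq_one.1 h2)
    obtain ⟨r, hr1, hr2⟩ := exists_between hlt
    have hr0 : 0 ≤ r := (norm_nonneg _).trans hr1.le
    refine ⟨{θ' | ‖(1 + ((θ' h : Circle) : ℂ)) / 2‖ < r}, ?_, ?_⟩
    · apply mem_nhdsWithin_of_mem_nhds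
      refine IsOpen.mem_nhds ?_ (show θ ∈ {θ' : PontryaginDual G |
        ‖(1 + ((θ' h : Circle) : ℂ)) / 2‖ < r} from hr1)
      exact isOpen_lt ((continuous_const.add (continuous_eval h)).div_const _).norm continuous_const
    · intro ε hε
      obtain ⟨n, hn⟩ := exists_pow_lt_of_lt_one hε hr2
      refine ⟨List.replicate n h, fun θ' hθ' => ?_⟩
      rw [ker, List.map_replicate, List.prod_replicate, norm_pow]
      exact (pow_le_pow_left₀ (norm_nonneg _) (le_of_lt hθ') n).trans hn.le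

/-- Translates of small neighbourhoods have small measure. -/
theorem exists_nhds_small (μ : Measure (PontryaginDual G)) [IsFiniteMeasure μ] [μ.Regular]
    (hμ : ∀ χ, μ {χ} = 0) (ε : ENNReal) (hε : 0 < ε) :
    ∃ U ∈ 𝓝 (1 : PontryaginDual G), ∀ χ, μ {ψ | ψ * χ⁻¹ ∈ U} ≤ ε := by
  have h := (isCompact_univ (X := PontryaginDual G)).induction_on
    (p := fun s => ∃ U ∈ 𝓝 (1 : PontryaginDual G), ∀ χ ∈ s, μ {ψ | ψ * χ⁻¹ ∈ U} ≤ ε)
    ⟨Set.univ, Filter.univ_mem, fun χ hχ => absurd hχ (Set.notMem_empty χ)⟩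
    (by
      rintro s t hst ⟨U, hU, h⟩
      exact ⟨U, hU, fun χ hχ => h χ (hst hχ)⟩)
    (by
      rintro s t ⟨U, hU, h⟩ ⟨V, hV, h'⟩
      refine ⟨U ∩ V, Filter.inter_mem hU hV, ?_⟩
      rintro χ (hχ | hχ)
      · exact (measure_mono fun ψ hψ => hψ.1).trans (h χ hχ)
      · exact (measure_mono fun ψ hψ => hψ.2).trans (h' χ hχ))
    (by
      intro χ₀ _
      obtain ⟨W, hW1, hW2, hW3⟩ := Set.exists_isOpen_lt_of_lt ({χ₀} : Set (PontryaginDual G)) ε
        (by rw [hμ]; exact hε)
      have hcont : Tendsto (fun p : PontryaginDual G × PontryaginDual G => p.1 * p.2)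
          (𝓝 (1, χ₀)) (𝓝 (1 * χ₀)) := continuous_mul.tendsto _
      rw [one_mul] at hcont
      have hmem := hcont (hW2.mem_nhds (hW1 rfl))
      rw [Filter.mem_map, mem_nhds_prod_iff] at hmem
      obtain ⟨U, hU, N, hN, hUN⟩ := hmem
      refine ⟨N, mem_nhdsWithin_of_mem_nhds hN, U, hU, ?_⟩
      intro χ hχ
      refine (measure_mono ?_).trans hW3.le
      intro ψ hψ
      have := hUN (Set.mk_mem_prod hψ hχ)
      simpa using this)
  obtain ⟨U, hU, h⟩ := h
  exact ⟨U, hU, fun χ => h χ (Set.mem_univ χ)⟩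

/-- The inner integral. -/
noncomputable def J (μ : Measure (PontryaginDual G)) (L : List G) (g : G)
    (χ : PontryaginDual G) : ℂ :=
  ∫ ψ : PontryaginDual G, (((ψ * χ⁻¹) g : Circle) : ℂ) * ker L (ψ * χ⁻¹) ∂μ

/-- The double integral. -/
noncomputable def F (μ : Measure (PontryaginDual G)) (L : List G) (g : G) : ℂ :=
  ∫ χ : PontryaginDual G, J μ L g χ ∂μ

variable (μ : Measure (PontryaginDual G)) [IsFiniteMeasure μ]

theorem integrable_of_continuous {f : PontryaginDual G → ℂ} (hf : Continuous f) :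
    Integrable f μ := by
  obtain ⟨C, hC⟩ := (isCompact_univ (X := PontryaginDual G)).exists_bound_of_continuousOn
    hf.continuousOn
  exact Integrable.of_bound hf.aestronglyMeasurable C
    (Filter.Eventually.of_forall fun x => hC x (Set.mem_univ x))

theorem continuous_integrand (L : List G) (g : G) (χ : PontryaginDual G) :
    Continuous (fun ψ : PontryaginDual G =>
      (((ψ * χ⁻¹) g : Circle) : ℂ) * ker L (ψ * χ⁻¹)) := by
  have h1 : Continuous (fun ψ : PontryaginDual G => ψ * χ⁻¹) := continuous_mul_const _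
  exact ((continuous_eval g).comp h1).mul ((continuous_ker L).comp h1)

theorem J_cons (h : G) (L : List G) (g : G) (χ : PontryaginDual G) :
    J μ (h :: L) g χ = (J μ L g χ + J μ L (g * h) χ) / 2 := by
  rw [J, J, J, ← integral_add (integrable_of_continuous μ (continuous_integrand L g χ))
    (integrable_of_continuous μ (continuous_integrand L (g * h) χ)), ← integral_div]
  congr 1
  funext ψ
  have h1 : ker (h :: L) (ψ * χ⁻¹) =
      (1 + (((ψ * χ⁻¹) h : Circle) : ℂ)) / 2 * ker L (ψ * χ⁻¹) := by simp [ker]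
  rw [h1, map_mul, Circle.coe_mul]
  ring

theorem J_nil (g : G) (χ : PontryaginDual G) :
    J μ [] g χ = (starRingEnd ℂ) ((χ g : Circle) : ℂ) * (starRingEnd ℂ) (ft μ g) := by
  rw [J, ft, ← integral_conj, ← integral_const_mul]
  congr 1
  funext ψ
  have h1 : ((ψ * χ⁻¹) g : Circle) = ψ g * (χ g)⁻¹ := rfl
  rw [h1, Circle.coe_mul, Circle.coe_inv_eq_conj, Complex.conj_conj]
  simp [ker, mul_comm]

theorem continuous_J (L : List G) : ∀ g : G, Continuous (J μ L g) := by
  induction L with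
  | nil =>
    intro g
    have : J μ [] g = fun χ => (starRingEnd ℂ) ((χ g : Circle) : ℂ) *
        (starRingEnd ℂ) (ft μ g) := by
      funext χ
      exact J_nil μ g χ
    rw [this]
    exact (Complex.continuous_conj.comp (continuous_eval g)).mul continuous_const
  | cons h L ih =>
    intro g
    have : J μ (h :: L) g = fun χ => (J μ L g χ + J μ L (g * h) χ) / 2 := by
      funext χ
      exact J_cons μ h L g χ
    rw [this]
    exact ((ih g).add (ih (g * h))).div_const _

theorem F_cons (h : G) (L : List G) (g : G) :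
    F μ (h :: L) g = (F μ L g + F μ L (g * h)) / 2 := by
  rw [F, F, F, ← integral_add (integrable_of_continuous μ (continuous_J μ L g))
    (integrable_of_continuous μ (continuous_J μ L (g * h))), ← integral_div]
  congr 1
  funext χ
  exact J_cons μ h L g χ

theorem F_nil (g : G) : F μ [] g = ((‖ft μ g‖ ^ 2 : ℝ) : ℂ) := by
  have h1 : ∀ χ, J μ [] g χ = (starRingEnd ℂ) ((χ g : Circle) : ℂ) * (starRingEnd ℂ) (ft μ g) :=
    J_nil μ g
  rw [F]
  simp only [h1]
  rw [integral_mul_const]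
  have h2 : ∫ χ : PontryaginDual G, (starRingEnd ℂ) ((χ g : Circle) : ℂ) ∂μ = ft μ g := rfl
  rw [h2, Complex.mul_conj, Complex.normSq_eq_norm_sq]

theorem norm_J_le (L : List G) (g : G) (χ : PontryaginDual G) {U : Set (PontryaginDual G)}
    (hU : IsOpen U) {ε : ℝ} (hε : 0 ≤ ε) (h : ∀ θ, θ ∉ U → ‖ker L θ‖ ≤ ε) {δ : ℝ}
    (hδ : μ.real {ψ | ψ * χ⁻¹ ∈ U} ≤ δ) :
    ‖J μ L g χ‖ ≤ ε * μ.real Set.univ + δ := by
  have hmeas : MeasurableSet {ψ : PontryaginDual G | ψ * χ⁻¹ ∈ U} :=
    (hU.preimage (continuous_mul_const χ⁻¹)).measurableSet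
  have hint : Integrable (Set.indicator {ψ : PontryaginDual G | ψ * χ⁻¹ ∈ U}
      (fun _ => (1 : ℝ))) μ := (integrable_const (1 : ℝ)).indicator hmeas
  have h1 : ‖J μ L g χ‖ ≤ ∫ ψ, (ε + Set.indicator {ψ : PontryaginDual G | ψ * χ⁻¹ ∈ U}
      (fun _ => (1 : ℝ)) ψ) ∂μ := by
    apply norm_integral_le_of_norm_le ((integrable_const ε).add hint)
    apply Filter.Eventually.of_forall
    intro ψ
    rw [norm_mul, Circle.norm_coe, one_mul, Pi.add_apply]
    by_cases hψ : ψ ∈ {ψ : PontryaginDual G | ψ * χ⁻¹ ∈ U}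
    · have := norm_ker_le L (ψ * χ⁻¹)
      rw [Set.indicator_of_mem hψ]
      linarith
    · rw [Set.indicator_of_notMem hψ, add_zero]
      exact h _ hψ
  rw [integral_add (integrable_const ε) hint, integral_const, integral_indicator_const _ hmeas,
    smul_eq_mul, smul_eq_mul, mul_one] at h1
  linarith

theorem norm_F_le (L : List G) (g : G) {C : ℝ} (h : ∀ χ, ‖J μ L g χ‖ ≤ C) :
    ‖F μ L g‖ ≤ C * μ.real Set.univ := by
  exact norm_integral_le_of_norm_le_const (Filter.Eventually.of_forall h)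

theorem bdd_F (L : List G) : Bdd (fun g => (F μ L g).re) := by
  refine ⟨(1 * μ.real Set.univ + 0) * μ.real Set.univ, fun g => ?_⟩
  refine (Complex.abs_re_le_norm _).trans ?_
  apply norm_F_le
  intro χ
  apply norm_J_le μ L g χ isOpen_empty zero_le_one (fun θ _ => norm_ker_le L θ)
  simp

theorem mean_F {m : (G → ℝ) → ℝ} (hm : IsInvMean m) (L : List G) :
    m (fun g => (F μ L g).re) = m (fun g => ‖ft μ g‖ ^ 2) := by
  induction L with
  | nil =>
    congr 1
    funext g
    rw [F_nil, Complex.ofReal_re]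
  | cons h L ih =>
    have h1 : (fun g => (F μ (h :: L) g).re) =
        fun g => (1 / 2 : ℝ) * (F μ L g).re + (1 / 2 : ℝ) * (F μ L (g * h)).re := by
      funext g
      rw [F_cons]
      simp
      ring
    have hb := bdd_F μ L
    have hb' : Bdd (fun g => (F μ L (g * h)).re) := by
      obtain ⟨C, hC⟩ := hb
      exact ⟨C, fun g => hC (g * h)⟩
    rw [h1, hm.1.add _ _ (hb.smul _) (hb'.smul _), hm.1.smul _ _ hb, hm.1.smul _ _ hb',
      hm.2 (fun g => (F μ L g).re) hb h, ih]
    ring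

theorem norm_ft_le (g : G) : ‖ft μ g‖ ≤ μ.real Set.univ := by
  have := norm_integral_le_of_norm_le_const (μ := μ) (C := 1)
    (f := fun χ : PontryaginDual G => (starRingEnd ℂ) ((χ g : Circle) : ℂ))
    (Filter.Eventually.of_forall fun χ => by rw [RCLike.norm_conj, Circle.norm_coe])
  rwa [one_mul] at this

theorem wiener_sq [μ.Regular] (hμ : ∀ χ, μ {χ} = 0) {m : (G → ℝ) → ℝ} (hm : IsInvMean m) :
    m (fun g => ‖ft μ g‖ ^ 2) = 0 := by
  set M := μ.real (Set.univ : Set (PontryaginDual G)) with hM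
  have hM0 : 0 ≤ M := measureReal_nonneg
  have key : ∀ ε : ℝ, 0 < ε → |m (fun g => ‖ft μ g‖ ^ 2)| ≤ (ε * M + ε) * M := by
    intro ε hε
    obtain ⟨U, hU, hUχ⟩ := exists_nhds_small μ hμ (ENNReal.ofReal ε) (ENNReal.ofReal_pos.2 hε)
    have hopen : IsOpen (interior U) := isOpen_interior
    have h1 : (1 : PontryaginDual G) ∉ (interior U)ᶜ := by
      intro h
      exact h (mem_interior_iff_mem_nhds.2 hU)
    obtain ⟨L, hL⟩ := exists_ker hopen.isClosed_compl.isCompact h1 ε hε
    rw [← mean_F μ hm L]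
    apply hm.1.abs_le
    intro g
    refine (Complex.abs_re_le_norm _).trans ?_
    apply norm_F_le
    intro χ
    apply norm_J_le μ L g χ hopen hε.le (fun θ hθ => hL θ hθ)
    apply ENNReal.toReal_le_of_le_ofReal hε.le
    have hsub : {ψ : PontryaginDual G | ψ * χ⁻¹ ∈ interior U} ⊆ {ψ | ψ * χ⁻¹ ∈ U} :=
      fun ψ hψ => interior_subset (s := U) hψ
    exact (measure_mono hsub).trans (hUχ χ)
  have h2 : |m (fun g => ‖ft μ g‖ ^ 2)| ≤ 0 := by
    apply le_of_forall_pos_le_add
    intro η hη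
    have h3 := key (η / ((M + 1) * (M + 1))) (by positivity)
    refine h3.trans ?_
    rw [zero_add]
    have h4 : (η / ((M + 1) * (M + 1)) * M + η / ((M + 1) * (M + 1))) * M = η * (M / (M + 1)) := by
      field_simp
    rw [h4]
    have h5 : M / (M + 1) ≤ 1 := by
      rw [div_le_one (by positivity)]
      linarith
    nlinarith
  exact abs_eq_zero.1 (le_antisymm h2 (abs_nonneg _))

/-- Wiener's lemma for invariant means. -/
theorem wiener [μ.Regular] (hμ : ∀ χ, μ {χ} = 0) {m : (G → ℝ) → ℝ} (hm : IsInvMean m) :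
    m (fun g => ‖ft μ g‖) = 0 := by
  set M := μ.real (Set.univ : Set (PontryaginDual G)) with hM
  have hb : Bdd (fun g => ‖ft μ g‖) := ⟨M, fun g => by
    rw [abs_of_nonneg (norm_nonneg _)]
    exact norm_ft_le μ g⟩
  have hb2 : Bdd (fun g => ‖ft μ g‖ ^ 2) := ⟨M ^ 2, fun g => by
    rw [abs_of_nonneg (by positivity)]
    exact pow_le_pow_left₀ (norm_nonneg _) (norm_ft_le μ g) 2⟩
  have h0 : 0 ≤ m (fun g => ‖ft μ g‖) := hm.1.nonneg _ hb fun g => norm_nonneg _
  have h1 : ∀ δ : ℝ, 0 < δ → m (fun g => ‖ft μ g‖) ≤ 0 + δ := by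
    intro δ hδ
    have h2 : m (fun g => ‖ft μ g‖) ≤ m (fun g => δ + δ⁻¹ * ‖ft μ g‖ ^ 2) := by
      apply hm.1.mono hb ((bdd_const δ).add (hb2.smul _))
      intro g
      have h3 : 0 ≤ δ⁻¹ * (‖ft μ g‖ - δ) ^ 2 := by positivity
      have h4 : δ⁻¹ * (‖ft μ g‖ - δ) ^ 2 = δ⁻¹ * ‖ft μ g‖ ^ 2 - 2 * ‖ft μ g‖ + δ := by
        field_simp
        ring
      have h5 := norm_nonneg (ft μ g)
      linarith
    rw [hm.1.add _ _ (bdd_const δ) (hb2.smul _), hm.1.const, hm.1.smul _ _ hb2,
      wiener_sq μ hμ hm, mul_zero, add_zero] at h2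
    linarith
  exact le_antisymm (le_of_forall_pos_le_add h1) h0

end wiener

section main

variable {G : Type*} [CommGroup G] [TopologicalSpace G] [DiscreteTopology G]

/-- Bohr sets. -/
abbrev BohrSet (G : Type*) [CommGroup G] [TopologicalSpace G] := {B : Set G // IsBohr B}

theorem isBohr_univ : IsBohr (Set.univ : Set G) :=
  ⟨0, Fin.elim0, 1, one_pos, by ext g; simp⟩

instance : Nonempty (BohrSet G) := ⟨⟨Set.univ, isBohr_univ⟩⟩

theorem exists_bohr_le (B C : BohrSet G) : ∃ D : BohrSet G, D ≤ B ∧ D ≤ C := by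
  obtain ⟨B, k, χ, ε, hε, rfl⟩ := B
  obtain ⟨C, l, ψ, δ, hδ, rfl⟩ := C
  refine ⟨⟨_, k + l, Fin.append χ ψ, min ε δ, lt_min hε hδ, rfl⟩, ?_, ?_⟩
  · intro g hg j
    have := hg (Fin.castAdd l j)
    rw [Fin.append_left] at this
    exact this.trans_le (min_le_left _ _)
  · intro g hg j
    have := hg (Fin.natAdd k j)
    rw [Fin.append_right] at this
    exact this.trans_le (min_le_right _ _)

theorem exists_mean_of_dStar {A : Set G} (h : 0 < dStar A) :
    ∃ m : (G → ℝ) → ℝ, IsInvMean m ∧ 0 < m (ind A) := by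
  by_contra hcon
  push Not at hcon
  apply absurd h
  rw [not_lt]
  apply Real.sSup_nonpos
  rintro t ⟨m, hm, rfl⟩
  exact hcon m hm

end main

/-- Every `(𝒜, ℬ)`-expanding set `S` in a discrete abelian group supports a KMF mean; the mean can
be chosen with `m(1_B) = 1` for every Bohr set `B`. -/
theorem result {G : Type*} [CommGroup G] [TopologicalSpace G] [DiscreteTopology G] (S : Set G)
    (hS : Expanding S) :
    ∃ m : (G → ℝ) → ℝ, IsKMF m ∧ m (ind S) = 1 ∧ ∀ B : Set G, IsBohr B → m (ind B) = 1 := by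
  have hex : ∀ B : BohrSet G, ∃ m : (G → ℝ) → ℝ, IsInvMean m ∧ 0 < m (ind (S ∩ B.1)) :=
    fun B => exists_mean_of_dStar (hS B.1 B.2)
  choose mB hmB hpos using hex
  have hdir : (Filter.atBot : Filter (BohrSet G)).NeBot := by
    have : IsCodirectedOrder (BohrSet G) := ⟨fun B C => exists_bohr_le B C⟩
    infer_instance
  let U : Ultrafilter (BohrSet G) := Ultrafilter.of Filter.atBot
  have hU : (U : Filter (BohrSet G)) ≤ Filter.atBot := Ultrafilter.of_le _
  let ν : BohrSet G → (G → ℝ) → ℝ := fun B => cond (mB B) (S ∩ B.1)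
  obtain ⟨m, hm, hlim⟩ := exists_limit U ν (fun B => isMean_cond (hmB B).1 (hpos B))
  have hB1 : ∀ B : Set G, IsBohr B → m (ind B) = 1 := by
    intro B hB
    apply tendsto_nhds_unique (hlim _ (bdd_ind B))
    apply tendsto_const_nhds.congr'
    have h1 : ∀ᶠ C : BohrSet G in (U : Filter (BohrSet G)), C ≤ ⟨B, hB⟩ :=
      hU (Filter.eventually_le_atBot _)
    filter_upwards [h1] with C hC
    exact (cond_of_subset (hpos C) (Set.inter_subset_right.trans hC)).symm
  refine ⟨m, ⟨hm, ?_, ?_⟩, ?_, hB1⟩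
  · intro μ hfin hreg hμ
    have hb : Bdd (fun g : G => ‖ft μ g‖) := ⟨μ.real Set.univ, fun g => by
      rw [abs_of_nonneg (norm_nonneg _)]
      exact norm_ft_le μ g⟩
    apply tendsto_nhds_unique (hlim _ hb)
    refine tendsto_const_nhds.congr fun B => ?_
    exact (cond_eq_zero (hmB B).1 (hpos B) hb (fun g => norm_nonneg _)
      (wiener μ hμ (hmB B))).symm
  · intro B hB
    rw [hB1 B hB]
    exact one_pos
  · apply tendsto_nhds_unique (hlim _ (bdd_ind S))
    refine tendsto_const_nhds.congr fun B => ?_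
    exact (cond_of_subset (hpos B) Set.inter_subset_left).symm

end Pool.Agent.Results.MP_49446c_co.ExpandingSupportsKMF
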